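import Mathlib

/-!
# Numbers of the form `K³k³ + y((k+1)³ - k³) + z((k+2)³ - k³)`
-/

set_option autoImplicit false

namespace Pool.Agent.X164.TC

theorem frob (a b : ℕ) (h : Nat.Coprime a b) (hb : b ≠ 0) (N : ℕ) (hN : a * b ≤ N) :
    ∃ y z : ℕ, N = y * a + z * b := by
  obtain ⟨m, hm, hmod⟩ := Nat.exists_mul_mod_eq_of_coprime N h hb
  have h1 : a * m ≤ N := le_trans (Nat.mul_le_mul_left _ hm.le) hN
  have h2 : (N - a * m) % b = 0 := by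
    have h3 : a * m ≡ N [MOD b] := hmod
    exact Nat.mod_eq_zero_of_dvd ((Nat.modEq_iff_dvd' h1).1 h3)
  obtain ⟨z, hz⟩ := Nat.dvd_of_mod_eq_zero h2
  refine ⟨m, z, ?_⟩
  have h4 : N = a * m + (N - a * m) := by omega
  rw [h4, hz]
  ring

theorem coprime_diff (k : ℕ) : Nat.Coprime (3 * k ^ 2 + 3 * k + 1) (6 * k ^ 2 + 12 * k + 8) := by
  have h2 : Nat.Coprime (3 * k ^ 2 + 3 * k + 1) 2 := by
    rw [Nat.coprime_two_right]
    have h3 : Even (k * (k + 1)) := Nat.even_mul_succ_self k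
    obtain ⟨c, hc⟩ := h3
    exact ⟨3 * c, by nlinarith⟩
  have h3 : Nat.Coprime (3 * k ^ 2 + 3 * k + 1) (3 * k ^ 2 + 6 * k + 4) := by
    have e1 : 3 * k ^ 2 + 6 * k + 4 = (3 * k ^ 2 + 3 * k + 1) + 3 * (k + 1) := by ring
    rw [e1, Nat.coprime_self_add_right]
    apply Nat.Coprime.mul_right
    · have e2 : 3 * k ^ 2 + 3 * k + 1 = 1 + 3 * (k ^ 2 + k) := by ring
      rw [e2, Nat.coprime_add_mul_left_left]
      exact Nat.coprime_one_left 3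
    · have e2 : 3 * k ^ 2 + 3 * k + 1 = 1 + (k + 1) * (3 * k) := by ring
      rw [e2, Nat.coprime_add_mul_left_left]
      exact Nat.coprime_one_left (k + 1)
  have e : 6 * k ^ 2 + 12 * k + 8 = 2 * (3 * k ^ 2 + 6 * k + 4) := by ring
  rw [e]
  exact Nat.Coprime.mul_right h2 h3

theorem size_bound (k K : ℕ) (hk : 1 ≤ k) (hK : 100 * k ≤ K) :
    (3 * K ^ 2 + 3 * K + 1) * k ^ 3 + (3 * k ^ 2 + 3 * k + 1) * (6 * k ^ 2 + 12 * k + 8) ≤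
      K ^ 3 * (3 * k ^ 2 + 3 * k + 1) := by
  have hK1 : 1 ≤ K := by omega
  have h1 : 3 * K ^ 2 + 3 * K + 1 ≤ 7 * K ^ 2 := by nlinarith
  have h2 : 3 * k ^ 2 + 3 * k + 1 ≤ 7 * k ^ 2 := by nlinarith
  have h3 : 6 * k ^ 2 + 12 * k + 8 ≤ 26 * k ^ 2 := by nlinarith
  have h4 : (3 * K ^ 2 + 3 * K + 1) * k ^ 3 ≤ 7 * K ^ 2 * k ^ 3 := Nat.mul_le_mul_right _ h1
  have h5 : (3 * k ^ 2 + 3 * k + 1) * (6 * k ^ 2 + 12 * k + 8) ≤ 7 * k ^ 2 * (26 * k ^ 2) :=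
    Nat.mul_le_mul h2 h3
  have h6 : k ≤ K ^ 2 := by nlinarith
  have h7 : 7 * k ^ 2 * (26 * k ^ 2) ≤ 182 * (K ^ 2 * k ^ 3) := by
    calc 7 * k ^ 2 * (26 * k ^ 2) = 182 * (k * k ^ 3) := by ring
      _ ≤ 182 * (K ^ 2 * k ^ 3) := by
          apply Nat.mul_le_mul_left
          exact Nat.mul_le_mul_right _ h6
  have h8 : K ^ 3 * (3 * k ^ 2 + 3 * k + 1) ≥ 300 * (K ^ 2 * k ^ 3) := by
    calc 300 * (K ^ 2 * k ^ 3) = (K ^ 2 * (100 * k)) * (3 * k ^ 2) := by ring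
      _ ≤ (K ^ 2 * K) * (3 * k ^ 2) := by
          apply Nat.mul_le_mul_right
          exact Nat.mul_le_mul_left _ hK
      _ = K ^ 3 * (3 * k ^ 2) := by ring
      _ ≤ K ^ 3 * (3 * k ^ 2 + 3 * k + 1) := by
          apply Nat.mul_le_mul_left
          omega
  nlinarith

theorem exists_rep (k : ℕ) (hk : 1 ≤ k) :
    ∃ n₀ : ℕ, ∀ n, n₀ ≤ n → ∃ K y z : ℕ, 0 < K ∧ y + z ≤ K ^ 3 ∧
      n = K ^ 3 * k ^ 3 + (y * (3 * k ^ 2 + 3 * k + 1) + z * (6 * k ^ 2 + 12 * k + 8)) := by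
  set a := 3 * k ^ 2 + 3 * k + 1 with ha
  set b := 6 * k ^ 2 + 12 * k + 8 with hb
  refine ⟨(100 * k) ^ 3 * k ^ 3 + a * b, fun n hn => ?_⟩
  have hP : (100 * k) ^ 3 * k ^ 3 + a * b ≤ n := hn
  have hle : 100 * k ≤ n := by
    have h1 : 100 * k ≤ (100 * k) ^ 3 * k ^ 3 := by
      have h2 : 1 ≤ k ^ 3 := Nat.one_le_pow _ _ hk
      have h3 : 100 * k ≤ (100 * k) ^ 3 := Nat.le_self_pow (by norm_num) _
      nlinarith
    omega
  set K := Nat.findGreatest (fun K => K ^ 3 * k ^ 3 + a * b ≤ n) n with hKdef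
  have hK1 : K ^ 3 * k ^ 3 + a * b ≤ n :=
    Nat.findGreatest_spec (P := fun K => K ^ 3 * k ^ 3 + a * b ≤ n) hle hP
  have hK2 : 100 * k ≤ K := Nat.le_findGreatest hle hP
  have hK3 : n < (K + 1) ^ 3 * k ^ 3 + a * b := by
    by_contra hcon
    push Not at hcon
    have h1 : K + 1 ≤ n := by
      have h2 : 1 ≤ k ^ 3 := Nat.one_le_pow _ _ hk
      have h3 : K + 1 ≤ (K + 1) ^ 3 := Nat.le_self_pow (by norm_num) _
      nlinarith
    have h4 : K + 1 ≤ K := Nat.le_findGreatest h1 hcon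
    omega
  obtain ⟨y, z, hyz⟩ := frob a b (coprime_diff k) (by omega) (n - K ^ 3 * k ^ 3) (by omega)
  refine ⟨K, y, z, by omega, ?_, by omega⟩
  have hsb := size_bound k K hk hK2
  have h5 : (y + z) * a ≤ n - K ^ 3 * k ^ 3 := by
    rw [hyz]
    have : a ≤ b := by omega
    nlinarith [Nat.mul_le_mul_left z this]
  have h6 : n - K ^ 3 * k ^ 3 < (3 * K ^ 2 + 3 * K + 1) * k ^ 3 + a * b := by
    have e : (K + 1) ^ 3 * k ^ 3 = K ^ 3 * k ^ 3 + (3 * K ^ 2 + 3 * K + 1) * k ^ 3 := by ring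
    omega
  have h7 : (y + z) * a < K ^ 3 * a := lt_of_le_of_lt h5 (lt_of_lt_of_le h6 hsb)
  exact (Nat.lt_of_mul_lt_mul_right h7).le

end Pool.Agent.X164.TC
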