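import Pool.Agent.X164.TC.Tile
import Pool.Agent.X164.TC.Num

/-!
# Tilings of the unit cube with cubes of three consecutive unit-fraction sizes
-/

set_option autoImplicit false

namespace Pool.Agent.X164.TC

theorem tiling_of_rep (k K y z : ℕ) (hk : 0 < k) (hK : 0 < K) (h : y + z ≤ K ^ 3) :
    ∃ P : Finset ((Fin 3 → ℝ) × ℝ), HT (0, 1) P ∧
      P.card = K ^ 3 * k ^ 3 + (y * (3 * k ^ 2 + 3 * k + 1) + z * (6 * k ^ 2 + 12 * k + 8)) ∧
      ∀ t ∈ P, t.2 = 1 / (K * k) ∨ t.2 = 1 / (K * (k + 1)) ∨ t.2 = 1 / (K * (k + 2)) := by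
  classical
  set B : (Fin 3 → ℝ) × ℝ := (0, 1) with hB
  have hB2 : 0 < B.2 := by simp [hB]
  set C := grid B K with hC
  have hCcard : C.card = K ^ 3 := grid_card hB2 hK
  have hCht : HT B C := grid_ht hB2 hK
  obtain ⟨Y, hYC, hYc⟩ := Finset.exists_subset_card_eq (s := C) (n := y) (by rw [hCcard]; omega)
  obtain ⟨Z, hZC, hZc⟩ := Finset.exists_subset_card_eq (s := C \ Y) (n := z) (by
    rw [Finset.card_sdiff_of_subset hYC, hCcard, hYc]; omega)
  set κ : ((Fin 3 → ℝ) × ℝ) → ℕ := fun t => if t ∈ Y then k + 1 else if t ∈ Z then k + 2 else k with hκ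
  have hκpos : ∀ t, 0 < κ t := by
    intro t
    simp only [hκ]
    split_ifs <;> omega
  have hCs : ∀ t ∈ C, t.2 = 1 / K := by
    intro t ht
    rw [grid_snd ht]
  have hCpos : ∀ t ∈ C, 0 < t.2 := fun t ht => hCht.pos t ht
  obtain ⟨h1, h2⟩ := ht_subst hCht (fun t => grid t (κ t)) (fun t ht => grid_ht (hCpos t ht) (hκpos t))
  refine ⟨_, h1, ?_, ?_⟩
  · rw [h2]
    have e1 : ∑ t ∈ C, (grid t (κ t)).card =
        ∑ t ∈ C, (k ^ 3 + ((if t ∈ Y then (3 * k ^ 2 + 3 * k + 1) else 0) +
          (if t ∈ Z then (6 * k ^ 2 + 12 * k + 8) else 0))) := by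
      apply Finset.sum_congr rfl
      intro t ht
      rw [grid_card (hCpos t ht) (hκpos t)]
      simp only [hκ]
      by_cases hY : t ∈ Y
      · have hZ : t ∉ Z := fun hZ => (Finset.mem_sdiff.1 (hZC hZ)).2 hY
        simp only [hY, hZ, if_true, if_false]
        ring
      · by_cases hZ : t ∈ Z
        · simp only [hY, hZ, if_true, if_false]
          ring
        · simp only [hY, hZ, if_false]
          ring
    rw [e1, Finset.sum_add_distrib, Finset.sum_add_distrib, Finset.sum_const, hCcard, ← Finset.sum_filter,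
      ← Finset.sum_filter, Finset.sum_const, Finset.sum_const]
    have e2 : C.filter (fun t => t ∈ Y) = Y := by
      ext t
      simp only [Finset.mem_filter]
      exact ⟨fun h => h.2, fun h => ⟨hYC h, h⟩⟩
    have e3 : C.filter (fun t => t ∈ Z) = Z := by
      ext t
      simp only [Finset.mem_filter]
      exact ⟨fun h => h.2, fun h => ⟨(Finset.mem_sdiff.1 (hZC h)).1, h⟩⟩
    rw [e2, e3, hYc, hZc]
    simp only [smul_eq_mul]
  · intro s hs
    obtain ⟨t, ht, hst⟩ := Finset.mem_biUnion.1 hs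
    have e1 := grid_snd hst
    rw [hCs t ht] at e1
    rw [e1]
    simp only [hκ]
    split_ifs
    · right; left
      push_cast
      rw [div_div]
    · right; right
      push_cast
      rw [div_div]
    · left
      rw [div_div]

end Pool.Agent.X164.TC
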