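import Mathlib

/-!
# Tilings of cubes of `ℝ³` by half-open and by closed cubes
-/

set_option autoImplicit false

namespace Pool.Agent.X164.TC

/-- The half-open cube with lowest corner `t.1` and side length `t.2`. -/
def hcube (t : (Fin 3 → ℝ) × ℝ) : Set (Fin 3 → ℝ) := {x | ∀ i, t.1 i ≤ x i ∧ x i < t.1 i + t.2}

/-- The closed cube with lowest corner `t.1` and side length `t.2`. -/
def ccube (t : (Fin 3 → ℝ) × ℝ) : Set (Fin 3 → ℝ) := {x | ∀ i, t.1 i ≤ x i ∧ x i ≤ t.1 i + t.2}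

/-- `P` is a partition of the half-open cube `B` into half-open cubes. -/
structure HT (B : (Fin 3 → ℝ) × ℝ) (P : Finset ((Fin 3 → ℝ) × ℝ)) : Prop where
  pos : ∀ t ∈ P, 0 < t.2
  sub : ∀ t ∈ P, ∀ i, B.1 i ≤ t.1 i ∧ t.1 i + t.2 ≤ B.1 i + B.2
  cov : ∀ x ∈ hcube B, ∃ t ∈ P, x ∈ hcube t
  uni : ∀ x, ∀ t ∈ P, ∀ u ∈ P, x ∈ hcube t → x ∈ hcube u → t = u

/-- The grid of `k³` cubes in the cube `B`. -/
noncomputable def grid (B : (Fin 3 → ℝ) × ℝ) (k : ℕ) : Finset ((Fin 3 → ℝ) × ℝ) :=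
  Finset.univ.image (fun w : Fin 3 → Fin k => ((fun i => B.1 i + ((w i : ℕ) : ℝ) * (B.2 / k)), B.2 / k))

theorem mem_grid {B : (Fin 3 → ℝ) × ℝ} {k : ℕ} {t : (Fin 3 → ℝ) × ℝ} :
    t ∈ grid B k ↔ ∃ w : Fin 3 → Fin k, ((fun i => B.1 i + ((w i : ℕ) : ℝ) * (B.2 / k)), B.2 / k) = t := by
  simp [grid]

theorem grid_snd {B : (Fin 3 → ℝ) × ℝ} {k : ℕ} {t : (Fin 3 → ℝ) × ℝ} (h : t ∈ grid B k) :
    t.2 = B.2 / k := by
  obtain ⟨w, rfl⟩ := mem_grid.1 h
  rfl

theorem grid_inj {B : (Fin 3 → ℝ) × ℝ} (hB : 0 < B.2) {k : ℕ} (hk : 0 < k) :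
    Function.Injective (fun w : Fin 3 → Fin k =>
      (((fun i => B.1 i + ((w i : ℕ) : ℝ) * (B.2 / k)), B.2 / k) : (Fin 3 → ℝ) × ℝ)) := by
  intro w w' h
  have h1 := congrArg Prod.fst h
  have hk' : (0 : ℝ) < k := by exact_mod_cast hk
  funext i
  have h2 := congrFun h1 i
  simp only at h2
  have h3 : ((w i : ℕ) : ℝ) * (B.2 / k) = ((w' i : ℕ) : ℝ) * (B.2 / k) := by linarith
  have h4 : B.2 / k ≠ 0 := (div_pos hB hk').ne'
  have h5 : ((w i : ℕ) : ℝ) = ((w' i : ℕ) : ℝ) := mul_right_cancel₀ h4 h3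
  exact Fin.ext (by exact_mod_cast h5)

theorem grid_card {B : (Fin 3 → ℝ) × ℝ} (hB : 0 < B.2) {k : ℕ} (hk : 0 < k) : (grid B k).card = k ^ 3 := by
  rw [grid, Finset.card_image_of_injective _ (grid_inj hB hk)]
  simp

theorem grid_ht {B : (Fin 3 → ℝ) × ℝ} (hB : 0 < B.2) {k : ℕ} (hk : 0 < k) : HT B (grid B k) := by
  have hk' : (0 : ℝ) < k := by exact_mod_cast hk
  have hs : 0 < B.2 / k := div_pos hB hk'
  have hsk : (k : ℝ) * (B.2 / k) = B.2 := by field_simp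
  refine ⟨?_, ?_, ?_, ?_⟩
  · intro t ht
    rw [grid_snd ht]
    exact hs
  · intro t ht i
    obtain ⟨w, rfl⟩ := mem_grid.1 ht
    simp only
    have h1 : (0 : ℝ) ≤ ((w i : ℕ) : ℝ) * (B.2 / k) := by positivity
    have h2 : ((w i : ℕ) : ℝ) + 1 ≤ k := by exact_mod_cast (w i).2
    have h3 : (((w i : ℕ) : ℝ) + 1) * (B.2 / k) ≤ k * (B.2 / k) := mul_le_mul_of_nonneg_right h2 hs.le
    constructor
    · linarith
    · nlinarith
  · intro x hx
    have key : ∀ i, ∃ w : Fin k, B.1 i + ((w : ℕ) : ℝ) * (B.2 / k) ≤ x i ∧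
        x i < B.1 i + ((w : ℕ) : ℝ) * (B.2 / k) + B.2 / k := by
      intro i
      obtain ⟨h1, h2⟩ := hx i
      have h3 : 0 ≤ (x i - B.1 i) / (B.2 / k) := div_nonneg (by linarith) hs.le
      have h4 := Nat.floor_le h3
      have h5 := Nat.lt_floor_add_one ((x i - B.1 i) / (B.2 / k))
      have h6 : (⌊(x i - B.1 i) / (B.2 / k)⌋₊ : ℝ) * (B.2 / k) ≤ x i - B.1 i := by
        rwa [le_div_iff₀ hs] at h4
      have h7 : x i - B.1 i < ((⌊(x i - B.1 i) / (B.2 / k)⌋₊ : ℝ) + 1) * (B.2 / k) := by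
        rwa [div_lt_iff₀ hs] at h5
      have h8 : ⌊(x i - B.1 i) / (B.2 / k)⌋₊ < k := by
        have h9 : (⌊(x i - B.1 i) / (B.2 / k)⌋₊ : ℝ) * (B.2 / k) < k * (B.2 / k) := by linarith
        have h10 := lt_of_mul_lt_mul_right h9 hs.le
        exact_mod_cast h10
      exact ⟨⟨_, h8⟩, by simpa using by linarith, by simp only; linarith⟩
    choose w hw using key
    exact ⟨_, mem_grid.2 ⟨w, rfl⟩, fun i => hw i⟩
  · intro x t ht u hu hxt hxu
    obtain ⟨w, rfl⟩ := mem_grid.1 ht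
    obtain ⟨v, rfl⟩ := mem_grid.1 hu
    have : w = v := by
      funext i
      obtain ⟨h1, h2⟩ := hxt i
      obtain ⟨h3, h4⟩ := hxu i
      simp only at h1 h2 h3 h4
      have h5 : ((w i : ℕ) : ℝ) * (B.2 / k) < (((v i : ℕ) : ℝ) + 1) * (B.2 / k) := by linarith
      have h6 : ((v i : ℕ) : ℝ) * (B.2 / k) < (((w i : ℕ) : ℝ) + 1) * (B.2 / k) := by linarith
      have h7 := lt_of_mul_lt_mul_right h5 hs.le
      have h8 := lt_of_mul_lt_mul_right h6 hs.le
      have h9 : (w i : ℕ) < (v i : ℕ) + 1 := by exact_mod_cast h7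
      have h10 : (v i : ℕ) < (w i : ℕ) + 1 := by exact_mod_cast h8
      exact Fin.ext (by omega)
    rw [this]

theorem hcube_mono {B t : (Fin 3 → ℝ) × ℝ} (h : ∀ i, B.1 i ≤ t.1 i ∧ t.1 i + t.2 ≤ B.1 i + B.2) :
    hcube t ⊆ hcube B := by
  intro x hx i
  have := hx i
  have := h i
  constructor <;> linarith

/-- Substitution of partitions. -/
theorem ht_subst {B : (Fin 3 → ℝ) × ℝ} {P : Finset ((Fin 3 → ℝ) × ℝ)} (hP : HT B P)
    (Q : ((Fin 3 → ℝ) × ℝ) → Finset ((Fin 3 → ℝ) × ℝ)) (hQ : ∀ t ∈ P, HT t (Q t)) :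
    HT B (P.biUnion Q) ∧ (P.biUnion Q).card = ∑ t ∈ P, (Q t).card := by
  classical
  have hmem : ∀ t ∈ P, ∀ s ∈ Q t, s.1 ∈ hcube s ∧ s.1 ∈ hcube t := by
    intro t ht s hs
    have h1 := (hQ t ht).pos s hs
    have h2 : s.1 ∈ hcube s := fun i => ⟨le_refl _, by linarith⟩
    exact ⟨h2, hcube_mono ((hQ t ht).sub s hs) h2⟩
  refine ⟨⟨?_, ?_, ?_, ?_⟩, ?_⟩
  · intro s hs
    obtain ⟨t, ht, hst⟩ := Finset.mem_biUnion.1 hs
    exact (hQ t ht).pos s hst
  · intro s hs i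
    obtain ⟨t, ht, hst⟩ := Finset.mem_biUnion.1 hs
    have h1 := (hQ t ht).sub s hst i
    have h2 := hP.sub t ht i
    constructor <;> linarith
  · intro x hx
    obtain ⟨t, ht, hxt⟩ := hP.cov x hx
    obtain ⟨s, hs, hxs⟩ := (hQ t ht).cov x hxt
    exact ⟨s, Finset.mem_biUnion.2 ⟨t, ht, hs⟩, hxs⟩
  · intro x s hs s' hs' hxs hxs'
    obtain ⟨t, ht, hst⟩ := Finset.mem_biUnion.1 hs
    obtain ⟨t', ht', hst'⟩ := Finset.mem_biUnion.1 hs'
    have h1 := hcube_mono ((hQ t ht).sub s hst) hxs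
    have h2 := hcube_mono ((hQ t' ht').sub s' hst') hxs'
    have h3 := hP.uni x t ht t' ht' h1 h2
    subst h3
    exact (hQ t ht).uni x s hst s' hst' hxs hxs'
  · apply Finset.card_biUnion
    intro t ht t' ht' hne
    change Disjoint (Q t) (Q t')
    rw [Finset.disjoint_left]
    intro s hs hs'
    have h1 := (hmem t ht s hs).2
    have h2 := (hmem t' ht' s hs').2
    exact hne (hP.uni _ t ht t' ht' h1 h2)

/-- The interior of a closed cube lies in the half-open cube. -/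
theorem interior_ccube (t : (Fin 3 → ℝ) × ℝ) : interior (ccube t) ⊆ hcube t := by
  have h1 : ccube t = Set.pi Set.univ (fun i => Set.Icc (t.1 i) (t.1 i + t.2)) := by
    ext x
    simp only [ccube, Set.mem_setOf_eq, Set.mem_pi, Set.mem_univ, true_implies, Set.mem_Icc]
  rw [h1, interior_pi_set Set.finite_univ]
  intro x hx i
  have h2 := hx i (Set.mem_univ i)
  have this : x i ∈ Set.Ioo (t.1 i) (t.1 i + t.2) := by
    rw [← interior_Icc]
    exact h2
  exact ⟨this.1.le, this.2⟩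

theorem isClosed_ccube (t : (Fin 3 → ℝ) × ℝ) : IsClosed (ccube t) := by
  have h1 : ccube t = Set.pi Set.univ (fun i => Set.Icc (t.1 i) (t.1 i + t.2)) := by
    ext x
    simp only [ccube, Set.mem_setOf_eq, Set.mem_pi, Set.mem_univ, true_implies, Set.mem_Icc]
  rw [h1]
  exact isClosed_set_pi fun i _ => isClosed_Icc

/-- From half-open to closed cubes. -/
theorem closed_of_ht {P : Finset ((Fin 3 → ℝ) × ℝ)} (hP : HT (0, 1) P) :
    (⋃ t ∈ P, ccube t) = Set.Icc (0 : Fin 3 → ℝ) 1 ∧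
    ∀ t ∈ P, ∀ u ∈ P, t ≠ u → Disjoint (interior (ccube t)) (interior (ccube u)) := by
  constructor
  · apply Set.Subset.antisymm
    · intro x hx
      simp only [Set.mem_iUnion] at hx
      obtain ⟨t, ht, hxt⟩ := hx
      have h1 := hP.sub t ht
      constructor
      · intro i
        have h2 := h1 i
        have h3 := hxt i
        simp only [Pi.zero_apply, zero_add] at h2 ⊢
        linarith
      · intro i
        have h2 := h1 i
        have h3 := hxt i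
        simp only [Pi.zero_apply, zero_add, Pi.one_apply] at h2 ⊢
        linarith
    · have hcl : IsClosed (⋃ t ∈ P, ccube t) :=
        P.finite_toSet.isClosed_biUnion fun t _ => isClosed_ccube t
      have h1 : hcube ((0 : Fin 3 → ℝ), (1 : ℝ)) ⊆ ⋃ t ∈ P, ccube t := by
        intro x hx
        obtain ⟨t, ht, hxt⟩ := hP.cov x hx
        simp only [Set.mem_iUnion]
        exact ⟨t, ht, fun i => ⟨(hxt i).1, (hxt i).2.le⟩⟩
      have h2 : hcube ((0 : Fin 3 → ℝ), (1 : ℝ)) = Set.pi Set.univ (fun _ => Set.Ico (0 : ℝ) 1) := by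
        ext x
        simp [hcube, Set.mem_pi]
      have h3 : closure (hcube ((0 : Fin 3 → ℝ), (1 : ℝ))) = Set.pi Set.univ (fun _ => Set.Icc (0 : ℝ) 1) := by
        rw [h2, closure_pi_set]
        congr 1
        funext i
        exact closure_Ico (by norm_num)
      have h4 := closure_minimal h1 hcl
      rw [h3] at h4
      intro x hx
      apply h4
      intro i _
      exact ⟨hx.1 i, hx.2 i⟩
  · intro t ht u hu hne
    rw [Set.disjoint_left]
    intro x hx hx'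
    exact hne (hP.uni x t ht u hu (interior_ccube t hx) (interior_ccube u hx'))

end Pool.Agent.X164.TC
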